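import Pool.Agent.H37.IS.Stm3

set_option autoImplicit false

namespace H37.IS

/-- one-site operator -/
noncomputable def pv31 {H : Type} [DecidableEq H] (q : H → Finset H → ℝ)
    (g : Finset H → ℝ) (v : H) (S : Finset H) : ℝ :=
  q v (S.erase v) * g (insert v S) + (1 - q v (S.erase v)) * g (S.erase v)

theorem site31 {H : Type} [Fintype H] [DecidableEq H] {Om : Finset (Finset H)}
    {w : Finset H → ℝ} {q : H → Finset H → ℝ} {c : H → ℝ} (hD : Dob Om w q c) (v : H)
    (f g : Finset H → ℝ) :
    ∑ A ∈ Om, w A * (f A * (g A - pv31 q g v A)) =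
      ∑ A ∈ Om.filter (fun A => v ∉ A ∧ insert v A ∈ Om),
        w A * q v A * ((f (insert v A) - f A) * (g (insert v A) - g A)) := by
  classical
  rw [← Finset.sum_filter_add_sum_filter_not Om (fun A => v ∈ A)]
  have h1 : ∑ A ∈ Om.filter (fun A => v ∈ A), w A * (f A * (g A - pv31 q g v A)) =
      ∑ A ∈ Om.filter (fun A => v ∉ A ∧ insert v A ∈ Om),
        w (insert v A) * (f (insert v A) * (g (insert v A) - pv31 q g v (insert v A))) := by
    refine Finset.sum_nbij' (fun A => A.erase v) (fun A => insert v A) ?_ ?_ ?_ ?_ ?_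
    · intro A hA
      rw [Finset.mem_filter] at hA ⊢
      refine ⟨hD.down A hA.1 _ (Finset.erase_subset _ _), Finset.notMem_erase _ _, ?_⟩
      rw [Finset.insert_erase hA.2]
      exact hA.1
    · intro A hA
      rw [Finset.mem_filter] at hA ⊢
      exact ⟨hA.2.2, Finset.mem_insert_self _ _⟩
    · intro A hA
      rw [Finset.mem_filter] at hA
      exact Finset.insert_erase hA.2
    · intro A hA
      rw [Finset.mem_filter] at hA
      exact Finset.erase_insert hA.2.1
    · intro A hA
      rw [Finset.mem_filter] at hA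
      simp only [Finset.insert_erase hA.2]
  have h2 : ∑ A ∈ Om.filter (fun A => ¬ v ∈ A), w A * (f A * (g A - pv31 q g v A)) =
      ∑ A ∈ Om.filter (fun A => v ∉ A ∧ insert v A ∈ Om),
        w A * (f A * (g A - pv31 q g v A)) := by
    symm
    refine Finset.sum_subset ?_ ?_
    · intro A hA
      rw [Finset.mem_filter] at hA ⊢
      exact ⟨hA.1, hA.2.1⟩
    · intro A hA hA'
      rw [Finset.mem_filter] at hA hA'
      have hni : insert v A ∉ Om := fun h => hA' ⟨hA.1, hA.2, h⟩
      have hq := hD.qz v A hA.2 hA.1 hni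
      unfold pv31
      rw [Finset.erase_eq_of_notMem hA.2, hq]
      ring
  rw [h1, h2, ← Finset.sum_add_distrib]
  refine Finset.sum_congr rfl fun A hA => ?_
  rw [Finset.mem_filter] at hA
  have hb := hD.bal v A hA.2.1 hA.2.2
  unfold pv31
  rw [Finset.erase_eq_of_notMem hA.2.1, Finset.erase_insert hA.2.1, Finset.insert_idem]
  linear_combination (f (insert v A) * (g (insert v A) - g A)) * hb

theorem Pst31 {H : Type} [Fintype H] [DecidableEq H] (q : H → Finset H → ℝ)
    (g : Finset H → ℝ) (S : Finset H) :
    Pst q g S = (∑ v : H, pv31 q g v S) / Fintype.card H := rfl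

theorem tot31 {H : Type} [Fintype H] [DecidableEq H] [Nonempty H] {Om : Finset (Finset H)}
    {w : Finset H → ℝ} {q : H → Finset H → ℝ} {c : H → ℝ} (hD : Dob Om w q c)
    (f g : Finset H → ℝ) :
    ∑ A ∈ Om, w A * (f A * g A) - ∑ A ∈ Om, w A * (f A * Pst q g A) =
      (∑ v : H, ∑ A ∈ Om.filter (fun A => v ∉ A ∧ insert v A ∈ Om),
        w A * q v A * ((f (insert v A) - f A) * (g (insert v A) - g A))) /
        (Fintype.card H : ℝ) := by
  have hn : (0 : ℝ) < Fintype.card H := by exact_mod_cast Fintype.card_pos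
  simp_rw [← site31 hD]
  rw [Finset.sum_comm, eq_div_iff hn.ne', ← Finset.sum_sub_distrib, Finset.sum_mul]
  refine Finset.sum_congr rfl fun A _ => ?_
  rw [Pst31, ← Finset.mul_sum, ← Finset.mul_sum, Finset.sum_sub_distrib, Finset.sum_const,
    Finset.card_univ, nsmul_eq_mul]
  field_simp

theorem DBB_proved : S_DBB := by
  intro H _ _ _ Om w q c hD
  have hn : (0 : ℝ) < Fintype.card H := by exact_mod_cast Fintype.card_pos
  refine ⟨fun g => ?_, ?_⟩
  · have h := tot31 hD (fun _ => 1) g
    simp only [one_mul, sub_self, zero_mul, mul_zero, Finset.sum_const_zero, zero_div] at h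
    linarith
  · intro f g b L Q hb hL hf hg hqQ hQ
    rw [tot31 hD f g]
    have key : ∀ v : H, ∑ A ∈ Om.filter (fun A => v ∉ A ∧ insert v A ∈ Om),
        w A * q v A * ((f (insert v A) - f A) * (g (insert v A) - g A)) ≤
        (b * L) * (c v ^ 2 * Q v) * ∑ A ∈ Om, w A := by
      intro v
      have h1 : ∑ A ∈ Om.filter (fun A => v ∉ A ∧ insert v A ∈ Om),
          w A * q v A * ((f (insert v A) - f A) * (g (insert v A) - g A)) ≤
          ∑ A ∈ Om.filter (fun A => v ∉ A ∧ insert v A ∈ Om),
            (b * L) * (c v ^ 2 * Q v) * w A := by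
        refine Finset.sum_le_sum fun A hA => ?_
        rw [Finset.mem_filter] at hA
        have hw := hD.wpos A hA.1
        have h2 := hf A v hA.2.1 hA.2.2
        have h3 := hg A v hA.2.1 hA.2.2
        have h4 := hqQ v A hA.2.1 hA.2.2
        have h5 := (hD.q01 v A).1
        have hc := hD.cpos v
        have h6 : (f (insert v A) - f A) * (g (insert v A) - g A) ≤ (b * c v) * (L * c v) := by
          calc (f (insert v A) - f A) * (g (insert v A) - g A)
              ≤ |(f (insert v A) - f A) * (g (insert v A) - g A)| := le_abs_self _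
            _ = |f (insert v A) - f A| * |g (insert v A) - g A| := abs_mul _ _
            _ ≤ (b * c v) * (L * c v) :=
              mul_le_mul h2 h3 (abs_nonneg _) (mul_nonneg hb hc.le)
        calc w A * q v A * ((f (insert v A) - f A) * (g (insert v A) - g A))
            ≤ w A * q v A * ((b * c v) * (L * c v)) :=
              mul_le_mul_of_nonneg_left h6 (mul_nonneg hw.le h5)
          _ ≤ w A * Q v * ((b * c v) * (L * c v)) := by
              refine mul_le_mul_of_nonneg_right (mul_le_mul_of_nonneg_left h4 hw.le) ?_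
              positivity
          _ = (b * L) * (c v ^ 2 * Q v) * w A := by ring
      refine h1.trans ?_
      rw [← Finset.mul_sum]
      have h7 : 0 ≤ (b * L) * (c v ^ 2 * Q v) := by
        have := hQ v
        positivity
      refine mul_le_mul_of_nonneg_left ?_ h7
      exact Finset.sum_le_sum_of_subset_of_nonneg (Finset.filter_subset _ _)
        fun A hA _ => (hD.wpos A hA).le
    calc (∑ v : H, ∑ A ∈ Om.filter (fun A => v ∉ A ∧ insert v A ∈ Om),
        w A * q v A * ((f (insert v A) - f A) * (g (insert v A) - g A))) /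
        (Fintype.card H : ℝ)
        ≤ (∑ v : H, (b * L) * (c v ^ 2 * Q v) * ∑ A ∈ Om, w A) / (Fintype.card H : ℝ) := by
          gcongr with v _
          exact key v
      _ = b * L / (Fintype.card H : ℝ) * (∑ v, c v ^ 2 * Q v) * ∑ A ∈ Om, w A := by
          rw [← Finset.sum_mul, ← Finset.mul_sum]
          ring

end H37.IS
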